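import Pool.Agent.W93.LV6

/-!
# Level of distribution `1 - ε` for almost all residues from an automatic set

From Mathlib: `DFA ℕ σ`: the deterministic automata with the set of states `σ` and the alphabet `ℕ`;
`M.accepts`: the set of the words accepted by `M`; `Nat.digits b v`: the digits of `v` in base `b`, from the
least significant to the most significant one; `ArithmeticFunction.vonMangoldt`: the function `Λ`;
`Nat.totient`: Euler's function.
-/

set_option autoImplicit false

namespace Pool.Agent.Results.MP_00e23e_nt.AutomaticResidues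

open Finset

open Classical in
/-- The number of the integers `0 ≤ v < N` with the property `E` whose base `b` digits are accepted by the
automaton `M`. -/
noncomputable def num {σ : Type} (b : ℕ) (M : DFA ℕ σ) (N : ℕ) (E : ℕ → Prop) : ℝ :=
  (((range N).filter fun v => Nat.digits b v ∈ M.accepts ∧ E v).card : ℝ)

/-- `ψ(x; q, a)`: the sum of `Λ(n)` over the `n ≤ x` with `n ≡ a (mod q)`. -/
noncomputable def psi (x q a : ℕ) : ℝ :=
  ∑ n ∈ (Icc 1 x).filter (fun n => n ≡ a [MOD q]), ArithmeticFunction.vonMangoldt n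

/-- The sum of `λ(q) (ψ(x; q, a) - x / φ(q))` over the `q ≤ Q` coprime to `a`. -/
noncomputable def weighted (lam : ℕ → ℝ) (Q x a : ℕ) : ℝ :=
  ∑ q ∈ (Icc 1 Q).filter (fun q => a.Coprime q), lam q * (psi x q a - (x : ℝ) / Nat.totient q)

/-- Let `S` be a `b`-automatic set: the set of the integers `v ≥ 0` whose base `b` digits are accepted by a finite
automaton `M`. Suppose that `S` is not sparse: the number of the elements of `S` below `N` is not bounded by a power of
`log N`. Let `κ ≥ 1`, `B`, `T`, `U` and `ε > 0` be fixed. Then, if `N` is large, we have for every `c ≤ B N`, for all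
coefficients `λ(q)` with `|λ(q)| ≤ log ^ T N` and for all the elements `v < N` of `S` with at most
`#(S ∩ [0, N)) / log ^ U N` exceptions: if `a = c + κ v` is positive, then the sum of
`λ(q) (ψ(x; q, a) - x / φ(q))` over the `q ≤ N ^ (1 - ε)` coprime to `a` has absolute value at most `N / log ^ U N` for all
`x ≤ B N`. -/
theorem result {σ : Type} [Finite σ] (b : ℕ) (hb : 2 ≤ b) (M : DFA ℕ σ)
    (hM : ∀ k : ℕ, ∃ᶠ N : ℕ in Filter.atTop, Real.log N ^ k < num b M N (fun _ => True))
    (κ : ℕ) (hκ : 1 ≤ κ) (B T U : ℕ) (ε : ℝ) (hε : 0 < ε) :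
    ∃ N₀ : ℕ, ∀ N, N₀ ≤ N → ∀ c : ℕ, c ≤ B * N → ∀ lam : ℕ → ℝ, (∀ q, |lam q| ≤ Real.log N ^ T) →
      num b M N (fun v => 0 < c + κ * v ∧
        ¬ ∀ x ≤ B * N, |weighted lam ⌊(N : ℝ) ^ (1 - ε)⌋₊ x (c + κ * v)| ≤ N / Real.log N ^ U) ≤
          num b M N (fun _ => True) / Real.log N ^ U := by
  classical
  have := Fintype.ofFinite σ
  have hnum : ∀ N, num b M N (fun _ => True) = (((range N).filter fun v => Nat.digits b v ∈ M.accepts).card : ℝ) := by
    intro N
    unfold num
    congr 2
    ext v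
    simp only [mem_filter, and_true]
  obtain ⟨N₀, h⟩ := Pool.Agent.W93.LV.lv_final b hb M (fun k => (hM k).mono fun N hN => by rw [hnum] at hN; exact hN)
    κ hκ (B + 1) (by omega) ε hε T U
  refine ⟨N₀, fun N hN c hc lam hlam => ?_⟩
  have hle : B * N ≤ (B + 1) * N := Nat.mul_le_mul_right _ (by omega)
  rw [hnum]
  refine le_trans ?_ (h N hN c (hc.trans hle) lam hlam ⌊(N : ℝ) ^ (1 - ε)⌋₊ (Nat.floor_le (by positivity))
    (fun v => 0 < c + κ * v ∧ ¬ ∀ x ≤ B * N, |weighted lam ⌊(N : ℝ) ^ (1 - ε)⌋₊ x (c + κ * v)| ≤ N / Real.log N ^ U) ?_)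
  · unfold num
    apply Nat.cast_le.2
    apply card_le_card
    intro v hv
    simp only [mem_filter] at hv ⊢
    exact hv
  · intro v hv
    refine ⟨hv.1, ?_⟩
    have h2 := hv.2
    push Not at h2
    obtain ⟨x, hx, h3⟩ := h2
    exact ⟨x, hx.trans hle, h3⟩

end Pool.Agent.Results.MP_00e23e_nt.AutomaticResidues
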