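import Pool.Agent.W123.PP.AP

set_option autoImplicit false

/-!
# Primes in progressions to EVERY modulus up to `x ^ (1 - θ)`, around almost all primes

For every modulus `q ≤ x ^ (1 - θ)` (no average over `q`) and for all but `ε x / log x` of the primes
`p` in `(x, 2x]`, the number of primes `≡ p (mod q)` in ALL intervals around `p` down to the mean gap
`φ(q) log x` of this residue class has the expected order, and up to `δ` it is a constant multiple
of the length of the interval at all but `K (θ, ε, δ)` dyadic scales.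
-/

namespace Pool.Agent.Results.MP_00e23e_nt.EveryModulusAlmostAllPrimes

open Finset Filter

/-- the number of primes `r ≡ p (mod q)` with `p - s q < r ≤ p + t q` -/
noncomputable def N (q p s t : ℕ) : ℕ :=
  ((Finset.Ioc (p - s * q) (p + t * q)).filter (fun r => r.Prime ∧ r ≡ p [MOD q])).card

/-- the mean gap between primes of a reduced residue class mod `q`, in steps of `q` -/
noncomputable def gap (x q : ℕ) : ℝ := (Nat.totient q : ℝ) / q * Real.log x

/-- all windows around `p` of at least `gap / c` steps have the right order of primes -/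
def RightOrder (c : ℝ) (x q p : ℕ) : Prop :=
  ∀ s t : ℕ, s ≤ x / q → t ≤ x / q → gap x q ≤ c * (s + t) →
    c * (s + t) / gap x q ≤ N q p s t ∧ (N q p s t : ℝ) ≤ (s + t) / (c * gap x q)

/-- constant density on the `2 ^ j` steps to both sides of `p` -/
def ConstantDensity (c δ : ℝ) (x q p j : ℕ) : Prop :=
  ∃ lam : ℝ, c ≤ lam ∧ lam ≤ 1 / c ∧ ∀ s t : ℕ, s ≤ 2 ^ j → t ≤ 2 ^ j →
    |(N q p s t : ℝ) - lam * (s + t) / gap x q| ≤ δ * 2 ^ j / gap x q

open Classical in
/-- the number of scales `gap ≤ 2 ^ j ≤ x / q` without this property -/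
noncomputable def badScales (c δ : ℝ) (x q p : ℕ) : ℕ :=
  ((Finset.range (Nat.log 2 (x / q) + 1)).filter (fun j => gap x q ≤ (2 : ℝ) ^ j ∧
    ¬ ConstantDensity c δ x q p j)).card

open Pool.Agent.W123.PP Pool.Agent.W123.RP Pool.Agent.W123.GS Pool.Agent.W123.PP.AP

lemma few_scales (S : Finset ℕ) (L : ℝ) (s0 : ℕ)
    (h : ∀ j ∈ S, L ≤ (2 : ℝ) ^ j ∧ (2 : ℝ) ^ j < 2 ^ s0 * L) : S.card ≤ s0 := by
  rcases S.eq_empty_or_nonempty with h0 | h0
  · rw [h0]; simp
  · have hsub : S ⊆ Ico (S.min' h0) (S.min' h0 + s0) := by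
      intro j hj
      rw [mem_Ico]
      refine ⟨S.min'_le j hj, ?_⟩
      by_contra hcon
      rw [not_lt] at hcon
      have h1 := (h _ (S.min'_mem h0)).1
      have h2 := (h j hj).2
      have h3 : (2 : ℝ) ^ (S.min' h0 + s0) ≤ 2 ^ j := pow_le_pow_right₀ (by norm_num) hcon
      rw [pow_add] at h3
      have h4 : (0 : ℝ) < 2 ^ s0 := by positivity
      nlinarith
    have := card_le_card hsub
    rw [Nat.card_Ico] at this
    omega

open Classical in
lemma N_eq (q a n s t : ℕ) (hq : 1 ≤ q) (ha : a < q) (hs : s ≤ n) :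
    N q (a + n * q) s t = co (PQ q a) (n - s) (n + t) := by
  symm
  have hsq : s * q ≤ n * q := Nat.mul_le_mul_right q hs
  unfold N co
  apply Finset.card_bij (fun m _ => a + m * q)
  · intro m hm
    rw [mem_filter, mem_Ioc] at hm ⊢
    obtain ⟨⟨h1, h2⟩, h3⟩ := hm
    refine ⟨⟨?_, ?_⟩, h3, ?_⟩
    · have h4 : n + 1 ≤ m + s := by omega
      have h5 : (n + 1) * q ≤ (m + s) * q := Nat.mul_le_mul_right q h4
      have h6 : (n + 1) * q = n * q + q := by ring
      have h7 : (m + s) * q = m * q + s * q := by ring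
      omega
    · have h5 : m * q ≤ (n + t) * q := Nat.mul_le_mul_right q h2
      have h6 : (n + t) * q = n * q + t * q := by ring
      omega
    · unfold Nat.ModEq
      rw [Nat.add_mul_mod_self_right, Nat.add_mul_mod_self_right]
  · intro m _ m' _ h
    have : m * q = m' * q := by omega
    exact Nat.eq_of_mul_eq_mul_right (by omega) this
  · intro r hr
    rw [mem_filter, mem_Ioc] at hr
    obtain ⟨⟨h1, h2⟩, h3, h4⟩ := hr
    have h5 : r % q = a := by
      have := h4
      unfold Nat.ModEq at this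
      rw [Nat.add_mul_mod_self_right, Nat.mod_eq_of_lt ha] at this
      exact this
    have h6 : a + r / q * q = r := by
      have := Nat.mod_add_div r q
      rw [h5] at this
      rw [mul_comm] at this
      exact (by rw [mul_comm] at this ⊢; exact this)
    refine ⟨r / q, ?_, h6⟩
    rw [mem_filter, mem_Ioc]
    refine ⟨⟨?_, ?_⟩, ?_⟩
    · by_contra hcon
      rw [not_lt] at hcon
      have h7 : (r / q + s) * q ≤ n * q := Nat.mul_le_mul_right q (by omega)
      have h8 : (r / q + s) * q = r / q * q + s * q := by ring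
      omega
    · by_contra hcon
      rw [not_le] at hcon
      have h7 : (n + t + 1) * q ≤ (r / q) * q := Nat.mul_le_mul_right q hcon
      have h8 : (n + t + 1) * q = n * q + t * q + q := by ring
      omega
    · unfold PQ
      rw [h6]; exact h3

open Classical in
/-- local form: windows around an index -/
lemma local_good (q a n X : ℕ) (L c0 Lam c δ : ℝ) (K s0 : ℕ) (hq : 1 ≤ q) (ha : a < q)
    (hL2 : 2 ≤ L) (hLX : L ≤ X) (hXn : X ≤ n) (hc0 : 0 < c0) (hc01 : c0 ≤ 1) (hLam : 0 < Lam)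
    (hc : 0 < c) (hc4 : c ≤ c0 / 4) (hcL : c ≤ 1 / (3 * Lam)) (hδ : 0 < δ)
    (hs0 : 2 / c0 ≤ (2 : ℝ) ^ s0)
    (W1 : ∀ H : ℕ, 1 ≤ H → H ≤ X →
          c0 / L * H ≤ cl (PQ q a) n (n + H) ∧ c0 / L * H ≤ cl (PQ q a) (n + 1 - H) (n + 1))
    (W2 : ∀ H : ℕ, ⌊L⌋₊ ≤ H → H ≤ X →
          (co (PQ q a) n (n + H) : ℝ) ≤ Lam / L * H ∧ (co (PQ q a) (n - H) n : ℝ) ≤ Lam / L * H)
    (W3 : ((range (Nat.log 2 X + 1)).filter (fun j => L ≤ (2 : ℝ) ^ j ∧
          ¬ Good (PQ q a) 0 Lam (min δ (c0 / 4)) L n j)).card ≤ K) :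
    (∀ s t : ℕ, s ≤ X → t ≤ X → L ≤ c * (s + t) →
      c * (s + t) / L ≤ N q (a + n * q) s t ∧ (N q (a + n * q) s t : ℝ) ≤ (s + t) / (c * L)) ∧
    ((Finset.range (Nat.log 2 X + 1)).filter (fun j => L ≤ (2 : ℝ) ^ j ∧
      ¬ (∃ lam : ℝ, c ≤ lam ∧ lam ≤ 1 / c ∧ ∀ s t : ℕ, s ≤ 2 ^ j → t ≤ 2 ^ j →
    |(N q (a + n * q) s t : ℝ) - lam * (s + t) / L| ≤ δ * 2 ^ j / L))).card ≤ K + s0 := by
  have hL0 : 0 < L := by linarith
  have hX0 : (0 : ℝ) < X := by linarith
  have hXn0 : 0 < X := by exact_mod_cast hX0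
  have hT1 : (⌊L⌋₊ : ℝ) ≤ L := Nat.floor_le hL0.le
  have hTX : ⌊L⌋₊ ≤ X := by
    have : (⌊L⌋₊ : ℝ) ≤ X := by linarith
    exact_mod_cast this
  have hc1 : c ≤ 1 := by linarith
  have hinvL : Lam ≤ 1 / c := by
    rw [le_div_iff₀ hc]
    rw [le_div_iff₀ (by positivity)] at hcL
    nlinarith
  -- from `[n, n + t)` to `(n, n + t]`
  have hright : ∀ t : ℕ, 1 ≤ t → t ≤ X → c0 / L * t - 1 ≤ (co (PQ q a) n (n + t) : ℝ) := by
    intro t ht htX
    have h1 := (W1 t ht htX).1
    have h2 : cl (PQ q a) n (n + t) ≤ co (PQ q a) n (n + t) + 1 := by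
      have e1 : cl (PQ q a) n (n + 1) + cl (PQ q a) (n + 1) (n + t) = cl (PQ q a) n (n + t) :=
        cl_add (by omega) (by omega)
      have e2 : cl (PQ q a) (n + 1) (n + t) ≤ cl (PQ q a) (n + 1) (n + t + 1) := cl_mono (by omega)
      have e3 : cl (PQ q a) (n + 1) (n + t + 1) = co (PQ q a) n (n + t) := cl_succ _ _
      have e4 : cl (PQ q a) n (n + 1) ≤ 1 := by
        have := cl_le_len (P := PQ q a) n (n + 1)
        omega
      omega
    have h3 : (cl (PQ q a) n (n + t) : ℝ) ≤ co (PQ q a) n (n + t) + 1 := by exact_mod_cast h2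
    linarith
  have hleft : ∀ s : ℕ, 1 ≤ s → s ≤ X → c0 / L * s ≤ (co (PQ q a) (n - s) n : ℝ) := by
    intro s hs hsX
    have h1 := (W1 s hs hsX).2
    have e : n + 1 - s = (n - s) + 1 := by omega
    rw [e, cl_succ] at h1
    exact h1
  have hsplit : ∀ s t : ℕ, (co (PQ q a) (n - s) (n + t) : ℝ) =
      co (PQ q a) (n - s) n + co (PQ q a) n (n + t) := by
    intro s t
    have := co_add (P := PQ q a) (a := n - s) (b := n) (c := n + t) (by omega) (by omega)
    exact_mod_cast this.symm
  constructor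
  · intro s t hs ht hst
    rw [N_eq q a n s t hq ha (by omega)]
    rw [hsplit]
    have hco1 : (0 : ℝ) ≤ co (PQ q a) (n - s) n := Nat.cast_nonneg _
    have hco2 : (0 : ℝ) ≤ co (PQ q a) n (n + t) := Nat.cast_nonneg _
    have hs0' : (0 : ℝ) ≤ s := Nat.cast_nonneg _
    have ht0' : (0 : ℝ) ≤ t := Nat.cast_nonneg _
    have hstL : 4 * L / c0 ≤ s + t := by
      rw [div_le_iff₀ hc0]
      have : c * ((s : ℝ) + t) ≤ c0 / 4 * (s + t) := by gcongr
      linarith
    constructor
    · rcases le_total s t with h | h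
      · have hr : (s : ℝ) ≤ t := by exact_mod_cast h
        have htpos : 1 ≤ t := by
          have : (0 : ℝ) < t := by
            have : 0 < 4 * L / c0 := by positivity
            linarith
          exact_mod_cast this
        have h1 := hright t htpos ht
        have h2 : 2 * L / c0 ≤ t := by
          have : 4 * L / c0 = 2 * (2 * L / c0) := by ring
          linarith
        have h3 : 1 ≤ c0 / (2 * L) * t := by
          calc (1 : ℝ) = c0 / (2 * L) * (2 * L / c0) := by field_simp
            _ ≤ c0 / (2 * L) * t := by gcongr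
        have h4 : c0 / L * t = c0 / (2 * L) * t + c0 / (2 * L) * t := by field_simp; norm_num
        have h5 : c * (s + t) / L ≤ c0 / (2 * L) * t := by
          calc c * (s + t) / L ≤ c0 / 4 * (t + t) / L := by gcongr
            _ = c0 / (2 * L) * t := by field_simp; ring
        linarith
      · have hr : (t : ℝ) ≤ s := by exact_mod_cast h
        have hspos : 1 ≤ s := by
          have : (0 : ℝ) < s := by
            have : 0 < 4 * L / c0 := by positivity
            linarith
          exact_mod_cast this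
        have h1 := hleft s hspos hs
        have h5 : c * (s + t) / L ≤ c0 / L * s := by
          calc c * (s + t) / L ≤ c0 / 4 * (s + s) / L := by gcongr
            _ = c0 / L * s / 2 := by field_simp; ring
            _ ≤ c0 / L * s := by
              have : 0 ≤ c0 / L * s := by positivity
              linarith
        linarith
    · have h1 : (co (PQ q a) n (n + t) : ℝ) ≤ Lam / L * (t + L) := by
        rcases le_total ⌊L⌋₊ t with h | h
        · refine (W2 t h ht).1.trans ?_
          gcongr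
          linarith
        · have h2 : (co (PQ q a) n (n + t) : ℝ) ≤ co (PQ q a) n (n + ⌊L⌋₊) := by
            exact_mod_cast co_mono (by omega)
          refine h2.trans ((W2 _ le_rfl hTX).1.trans ?_)
          gcongr
          linarith
      have h2 : (co (PQ q a) (n - s) n : ℝ) ≤ Lam / L * (s + L) := by
        rcases le_total ⌊L⌋₊ s with h | h
        · refine (W2 s h hs).2.trans ?_
          gcongr
          linarith
        · have h2 : (co (PQ q a) (n - s) n : ℝ) ≤ co (PQ q a) (n - ⌊L⌋₊) n := by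
            exact_mod_cast co_anti (by omega)
          refine h2.trans ((W2 _ le_rfl hTX).2.trans ?_)
          gcongr
          linarith
      have h3 : L ≤ s + t := by
        have : c * ((s : ℝ) + t) ≤ 1 * (s + t) := by gcongr
        linarith
      have h4 : Lam / L * (s + L) + Lam / L * (t + L) ≤ 3 * Lam * (s + t) / L := by
        have : Lam / L * (s + L) + Lam / L * (t + L) = Lam * (s + t + 2 * L) / L := by ring
        rw [this]
        calc Lam * (s + t + 2 * L) / L ≤ Lam * (3 * (s + t)) / L := by gcongr; linarith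
          _ = 3 * Lam * (s + t) / L := by ring
      have h5 : 3 * Lam * (s + t) / L ≤ (s + t) / (c * L) := by
        rw [div_le_div_iff₀ hL0 (by positivity)]
        rw [le_div_iff₀ (by positivity)] at hcL
        have h6 : 0 ≤ ((s : ℝ) + t) * L := by positivity
        calc 3 * Lam * (s + t) * (c * L) = (c * (3 * Lam)) * ((s + t) * L) := by ring
          _ ≤ 1 * ((s + t) * L) := by gcongr
          _ = (s + t) * L := one_mul _
      linarith
  · have hsub : (Finset.range (Nat.log 2 X + 1)).filter (fun j => L ≤ (2 : ℝ) ^ j ∧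
      ¬ (∃ lam : ℝ, c ≤ lam ∧ lam ≤ 1 / c ∧ ∀ s t : ℕ, s ≤ 2 ^ j → t ≤ 2 ^ j →
        |(N q (a + n * q) s t : ℝ) - lam * (s + t) / L| ≤ δ * 2 ^ j / L)) ⊆
      ((range (Nat.log 2 X + 1)).filter (fun j => L ≤ (2 : ℝ) ^ j ∧
          ¬ Good (PQ q a) 0 Lam (min δ (c0 / 4)) L n j)) ∪
      ((range (Nat.log 2 X + 1)).filter (fun j => L ≤ (2 : ℝ) ^ j ∧ (2 : ℝ) ^ j < 2 ^ s0 * L)) := by
      intro j hj
      rw [mem_filter] at hj
      obtain ⟨hj1, hj2, hj3⟩ := hj
      rw [mem_union, mem_filter, mem_filter]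
      by_contra hcon
      rw [not_or] at hcon
      obtain ⟨n1, n2⟩ := hcon
      have hbig : 2 ^ s0 * L ≤ (2 : ℝ) ^ j := by
        by_contra h
        rw [not_le] at h
        exact n2 ⟨hj1, hj2, h⟩
      have hgood : Good (PQ q a) 0 Lam (min δ (c0 / 4)) L n j := by
        by_contra h
        exact n1 ⟨hj1, hj2, h⟩
      have hjX : 2 ^ j ≤ X := by
        rw [mem_range] at hj1
        have h4 : 2 ^ j ≤ 2 ^ (Nat.log 2 X) := Nat.pow_le_pow_right (by norm_num) (by omega)
        exact h4.trans (Nat.pow_log_le_self 2 (by omega))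
      obtain ⟨θ, hθ1, hθ2, hθ⟩ := hgood
      apply hj3
      refine ⟨θ, ?_, hθ2.trans hinvL, ?_⟩
      · have h1 := hright (2 ^ j) Nat.one_le_two_pow hjX
        have hj0 : 0 < 2 ^ j := by positivity
        have h2 := (abs_le.1 (hθ n (n + 2 ^ j) (by omega) (by omega) le_rfl)).2
        have e1 : ((n + 2 ^ j : ℕ) : ℝ) - (n : ℝ) = 2 ^ j := by push_cast; ring
        rw [e1] at h2
        have e2 : (((2 ^ j : ℕ) : ℕ) : ℝ) = 2 ^ j := by push_cast; rfl
        rw [e2] at h1
        obtain ⟨D, hD⟩ : ∃ D : ℝ, D = 2 ^ j := ⟨_, rfl⟩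
        rw [← hD] at h1 h2 hbig
        have hDpos : 0 < D := by rw [hD]; positivity
        have hLD : L ≤ c0 / 2 * D := by
          have h5 : 2 / c0 * L ≤ D := le_trans (by gcongr) hbig
          calc L = c0 / 2 * (2 / c0 * L) := by field_simp
            _ ≤ c0 / 2 * D := by gcongr
        have h6 : c0 * D ≤ θ * D + min δ (c0 / 4) * D + L := by
          have h7 : c0 / L * D ≤ θ * D / L + min δ (c0 / 4) * D / L + 1 := by linarith
          have h8 := mul_le_mul_of_nonneg_right h7 hL0.le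
          have e6 : c0 / L * D * L = c0 * D := by field_simp
          have e7 : (θ * D / L + min δ (c0 / 4) * D / L + 1) * L =
              θ * D + min δ (c0 / 4) * D + L := by field_simp
          rw [e6, e7] at h8
          exact h8
        have h8 : c0 * D ≤ (θ + c0 / 4 + c0 / 2) * D := by
          have : min δ (c0 / 4) * D ≤ c0 / 4 * D := by gcongr; exact min_le_right _ _
          nlinarith
        have h9 := le_of_mul_le_mul_right h8 hDpos
        linarith
      · intro s t hs ht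
        rw [N_eq q a n s t hq ha (by omega)]
        have h1 := hθ (n - s) (n + t) (by omega) (by omega) (by omega)
        have e1 : ((n + t : ℕ) : ℝ) - ((n - s : ℕ) : ℝ) = s + t := by
          rw [Nat.cast_sub (by omega)]; push_cast; ring
        rw [e1] at h1
        refine h1.trans ?_
        gcongr
        exact min_le_left _ _
    have h1 := (card_le_card hsub).trans (card_union_le _ _)
    have h2 := few_scales ((range (Nat.log 2 X + 1)).filter (fun j => L ≤ (2 : ℝ) ^ j ∧
      (2 : ℝ) ^ j < 2 ^ s0 * L)) L s0 (fun j hj => (mem_filter.1 hj).2)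
    omega

open Classical in
/-- **Every modulus, almost all primes.** -/
theorem result : ∀ θ : ℝ, 0 < θ → θ < 1 → ∀ ε : ℝ, 0 < ε → ∃ c : ℝ, 0 < c ∧
    ∀ δ : ℝ, 0 < δ → ∃ K : ℕ, ∀ᶠ x : ℕ in atTop, ∀ q : ℕ, 1 ≤ q → (q : ℝ) ≤ (x : ℝ) ^ (1 - θ) →
      (((Finset.Ioc x (2 * x)).filter (fun p => p.Prime ∧
        ¬ (RightOrder c x q p ∧ badScales c δ x q p ≤ K))).card : ℝ) ≤ ε * x / Real.log x := by
  intro θ h0 h1 ε hε
  obtain ⟨C1, C2, hC1, hC2, hdata⟩ := data θ h0 h1
  obtain ⟨c1, Lam, hc1, hLam, hpts⟩ := points C1 C2 hC1 hC2 (ε / 2) (by positivity)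
  obtain ⟨c0, hc0def⟩ : ∃ c0 : ℝ, c0 = min c1 1 := ⟨_, rfl⟩
  have hc0 : 0 < c0 := by rw [hc0def]; exact lt_min hc1 one_pos
  have hc0c1 : c0 ≤ c1 := by rw [hc0def]; exact min_le_left _ _
  have hc01 : c0 ≤ 1 := by rw [hc0def]; exact min_le_right _ _
  obtain ⟨c, hcdef⟩ : ∃ c : ℝ, c = min (1 / (3 * Lam)) (c0 / 4) := ⟨_, rfl⟩
  have hc : 0 < c := by rw [hcdef]; positivity
  have hc4 : c ≤ c0 / 4 := by rw [hcdef]; exact min_le_right _ _
  have hcL : c ≤ 1 / (3 * Lam) := by rw [hcdef]; exact min_le_left _ _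
  refine ⟨c, hc, ?_⟩
  intro δ hδ
  obtain ⟨K, B0, hB0, hpts⟩ := hpts (min δ (c0 / 4)) (by positivity)
  obtain ⟨s0, hs0⟩ : ∃ s0 : ℕ, 2 / c0 ≤ (2 : ℝ) ^ s0 := by
    obtain ⟨j, hj⟩ := pow_unbounded_of_one_lt (2 / c0) (one_lt_two : (1 : ℝ) < 2)
    exact ⟨j, hj.le⟩
  refine ⟨K + s0, ?_⟩
  have hXr : Tendsto (fun X : ℕ => (X : ℝ)) atTop atTop := tendsto_natCast_atTop_atTop
  have hpl : ∀ᶠ x : ℕ in atTop, (4 / ε) * Real.log x ≤ (x : ℝ) ^ θ := by
    have h := ((isLittleO_log_rpow_atTop h0).comp_tendsto hXr).bound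
      (by positivity : (0 : ℝ) < ε / 4)
    filter_upwards [h, eventually_ge_atTop 1] with X hX hX1
    have hX1' : (1 : ℝ) ≤ X := by exact_mod_cast hX1
    have hl := Real.log_nonneg hX1'
    simp only [Function.comp_def] at hX
    rw [Real.norm_of_nonneg hl, Real.norm_of_nonneg (by positivity)] at hX
    calc (4 / ε) * Real.log X ≤ (4 / ε) * (ε / 4 * (X : ℝ) ^ θ) := by gcongr
      _ = (X : ℝ) ^ θ := by field_simp
  filter_upwards [hdata (B0 + 1) (by positivity), eventually_ge_atTop 3, hpl] with x hx hx3 hpl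
  intro q hq hqx
  have hx3r : (3 : ℝ) ≤ x := by exact_mod_cast hx3
  have hx0 : (0 : ℝ) < x := by linarith
  have hlog : 0 < Real.log x := Real.log_pos (by linarith)
  have hq0 : (0 : ℝ) < q := by exact_mod_cast hq
  have hqx' : (q : ℝ) ≤ x := by
    refine hqx.trans ?_
    calc (x : ℝ) ^ (1 - θ) ≤ (x : ℝ) ^ (1 : ℝ) :=
          Real.rpow_le_rpow_of_exponent_le (by linarith) (by linarith)
      _ = x := Real.rpow_one _
  have hqxn : q ≤ x := by exact_mod_cast hqx'
  unfold badScales RightOrder ConstantDensity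
  obtain ⟨L, hL⟩ : ∃ L : ℝ, L = gap x q := ⟨_, rfl⟩
  obtain ⟨X, hX⟩ : ∃ X : ℕ, X = x / q := ⟨_, rfl⟩
  have hdat := fun a ha => hx q a hq hqx ha L hL
  rw [← hL, ← hX]
  rw [← hX] at hdat
  have htot0 : (0 : ℝ) < Nat.totient q := by exact_mod_cast Nat.totient_pos.2 (by omega)
  -- the primes of one class
  obtain ⟨B, hB⟩ : ∃ B, B = (Finset.Ioc x (2 * x)).filter (fun p => p.Prime ∧
        ¬ ((∀ s t : ℕ, s ≤ X → t ≤ X → L ≤ c * (s + t) →
          c * (s + t) / L ≤ N q p s t ∧ (N q p s t : ℝ) ≤ (s + t) / (c * L)) ∧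
        ((Finset.range (Nat.log 2 X + 1)).filter (fun j => L ≤ (2 : ℝ) ^ j ∧
        ¬ (∃ lam : ℝ, c ≤ lam ∧ lam ≤ 1 / c ∧ ∀ s t : ℕ, s ≤ 2 ^ j → t ≤ 2 ^ j →
        |(N q p s t : ℝ) - lam * (s + t) / L| ≤ δ * 2 ^ j / L))).card ≤ K + s0)) := ⟨_, rfl⟩
  rw [← hB]
  have hclass : ∀ a ∈ (range q).filter (fun a => q.Coprime a),
      ((B.filter (fun p => p % q = a)).card : ℝ) ≤ 2 + ε / 2 * X / L := by
    intro a ha
    rw [mem_filter, mem_range] at ha
    obtain ⟨haq, hcop⟩ := ha
    obtain ⟨hL2, hBX, hup, hmom⟩ := hdat a hcop.symm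
    have hL0 : 0 < L := by linarith
    have hLL : 2 * L ≤ L ^ 2 := by nlinarith
    have hLX : L ≤ X := by nlinarith
    have hBX' : B0 * L ^ 2 ≤ X := by nlinarith [sq_nonneg L]
    have hbad := hpts (PQ q a) (PQ q a) X L hL2 hBX' (fun n h => h) hup hmom
    obtain ⟨S, hS⟩ : ∃ S, S = (Finset.Ioc X (2 * X)).filter (fun p => PQ q a p ∧ ¬ (
        (∀ H : ℕ, 1 ≤ H → H ≤ X →
          c1 / L * H ≤ cl (PQ q a) p (p + H) ∧ c1 / L * H ≤ cl (PQ q a) (p + 1 - H) (p + 1)) ∧
        (∀ H : ℕ, ⌊L⌋₊ ≤ H → H ≤ X →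
          (co (PQ q a) p (p + H) : ℝ) ≤ Lam / L * H ∧ (co (PQ q a) (p - H) p : ℝ) ≤ Lam / L * H) ∧
        ((range (Nat.log 2 X + 1)).filter (fun j => L ≤ (2 : ℝ) ^ j ∧
          ¬ Good (PQ q a) 0 Lam (min δ (c0 / 4)) L p j)).card ≤ K)) := ⟨_, rfl⟩
    rw [← hS] at hbad
    have hcard : (B.filter (fun p => p % q = a)).card ≤ (({X, 2 * X + 1} : Finset ℕ) ∪ S).card := by
      apply Finset.card_le_card_of_injOn (fun p => p / q)
      · intro p hp
        rw [Finset.mem_coe, mem_filter, hB, mem_filter, mem_Ioc] at hp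
        obtain ⟨⟨⟨hp1, hp2⟩, hp3, hp4⟩, hp5⟩ := hp
        rw [Finset.mem_coe, mem_union]
        beta_reduce
        have hpe : a + p / q * q = p := by
          have := Nat.mod_add_div p q
          rw [hp5] at this
          rw [mul_comm]
          exact this
        obtain ⟨n, hn⟩ : ∃ n, n = p / q := ⟨_, rfl⟩
        rw [← hn] at hpe ⊢
        have hn1 : X ≤ n := by
          rw [hX, hn]; exact Nat.div_le_div_right hp1.le
        have hn2 : n ≤ 2 * X + 1 := by
          have h3 : n < 2 * X + 2 := by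
            rw [hn, Nat.div_lt_iff_lt_mul (by omega)]
            have h4 : x < (X + 1) * q := by
              rw [hX]
              have h6 := Nat.mod_add_div x q
              have h7 := Nat.mod_lt x (show 0 < q by omega)
              have h8 : (x / q + 1) * q = q * (x / q) + q := by ring
              omega
            have h5 : (2 * X + 2) * q = 2 * ((X + 1) * q) := by ring
            omega
          omega
        by_cases hb : n = X ∨ n = 2 * X + 1
        · left
          rw [mem_insert, mem_singleton]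
          exact hb
        · right
          rw [not_or] at hb
          rw [hS, mem_filter, mem_Ioc]
          refine ⟨⟨by omega, by omega⟩, ?_, ?_⟩
          · unfold PQ; rw [hpe]; exact hp3
          · rintro ⟨W1, W2, W3⟩
            apply hp4
            have := local_good q a n X L c0 Lam c δ K s0 hq haq hL2 hLX hn1 hc0 hc01 hLam hc hc4 hcL
              hδ hs0 (by
                intro H hH1 hH2
                have h3 : c0 / L * H ≤ c1 / L * H := by gcongr
                exact ⟨h3.trans (W1 H hH1 hH2).1, h3.trans (W1 H hH1 hH2).2⟩) W2 W3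
            rw [hpe] at this
            exact this
      · intro p hp p' hp' h
        rw [Finset.mem_coe, mem_filter] at hp hp'
        simp only at h
        have h3 := Nat.mod_add_div p q
        have h4 := Nat.mod_add_div p' q
        rw [← h3, ← h4, hp.2, hp'.2, h]
    have h2 := hcard.trans (card_union_le _ _)
    have h3 : (({X, 2 * X + 1} : Finset ℕ)).card ≤ 2 := Finset.card_le_two
    have h4 : ((B.filter (fun p => p % q = a)).card : ℝ) ≤ 2 + S.card := by
      exact_mod_cast h2.trans (Nat.add_le_add_right h3 _)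
    linarith
  have hBcard : B.card = ∑ a ∈ (range q).filter (fun a => q.Coprime a),
      (B.filter (fun p => p % q = a)).card := by
    apply Finset.card_eq_sum_card_fiberwise
    intro p hp
    rw [Finset.mem_coe, hB, mem_filter, mem_Ioc] at hp
    rw [Finset.mem_coe, mem_filter, mem_range]
    refine ⟨Nat.mod_lt _ (by omega), ?_⟩
    have h3 : ¬ p ∣ q := by
      intro h
      have := Nat.le_of_dvd (by omega) h
      omega
    have h4 : Nat.Coprime p q := (Nat.Prime.coprime_iff_not_dvd hp.2.1).2 h3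
    have h5 : Nat.Coprime q (p % q) := by
      have : Nat.gcd q (p % q) = Nat.gcd q p := by
        rw [Nat.gcd_comm q (p % q), ← Nat.gcd_rec, ]
      unfold Nat.Coprime
      rw [this]
      exact h4.symm
    exact h5
  have hsum : (B.card : ℝ) ≤ (Nat.totient q : ℝ) * (2 + ε / 2 * X / L) := by
    rw [hBcard]
    push_cast
    refine (Finset.sum_le_sum hclass).trans ?_
    rw [Finset.sum_const, nsmul_eq_mul]
    apply le_of_eq
    congr 1
  refine hsum.trans ?_
  have hLpos : 0 < L := by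
    rw [hL]; unfold gap; positivity
  have hXx : (X : ℝ) ≤ x / q := by rw [hX]; exact Nat.cast_div_le
  have a1 : (Nat.totient q : ℝ) * (ε / 2 * X / L) ≤ ε / 2 * x / Real.log x := by
    calc (Nat.totient q : ℝ) * (ε / 2 * X / L) ≤ (Nat.totient q : ℝ) * (ε / 2 * (x / q) / L) := by gcongr
      _ = ε / 2 * x / Real.log x := by rw [hL]; unfold gap; field_simp
  have a2 : (Nat.totient q : ℝ) * 2 ≤ ε / 2 * x / Real.log x := by
    have b1 : (Nat.totient q : ℝ) ≤ q := by exact_mod_cast Nat.totient_le q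
    rw [le_div_iff₀ hlog]
    have b2 : (x : ℝ) = (x : ℝ) ^ (1 - θ) * (x : ℝ) ^ θ := by
      rw [← Real.rpow_add hx0]; norm_num
    calc (Nat.totient q : ℝ) * 2 * Real.log x ≤ (x : ℝ) ^ (1 - θ) * 2 * Real.log x := by
          gcongr
          exact b1.trans hqx
      _ = ε / 2 * ((x : ℝ) ^ (1 - θ) * ((4 / ε) * Real.log x)) := by field_simp; ring
      _ ≤ ε / 2 * ((x : ℝ) ^ (1 - θ) * (x : ℝ) ^ θ) := by gcongr
      _ = ε / 2 * x := by rw [← b2]
  have a3 : ε * x / Real.log x = ε / 2 * x / Real.log x + ε / 2 * x / Real.log x := by ring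
  rw [mul_add, a3]
  linarith

end Pool.Agent.Results.MP_00e23e_nt.EveryModulusAlmostAllPrimes
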