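import Pool.Agent.W109.Cor

/-!
Level of distribution `14/27` with the maximum over the residues inside the sum over the moduli.

Every `θ < 14/27`, all rough moduli `d ≤ N^θ` (all prime factors above `N^ε`), all bounded functions
on the primes, all sets `A ⊆ [-N, N]` of residues:

* a Bessel inequality in `ℓ²` over the pairs (modulus, residue);
* if `|A| ≤ N^η`: the asymptotic formula holds at all pairs `(d, a)`, `a ∈ A`, outside a set of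
  pairs with `∑_d |X_d|/φ(d) ≤ C/κ²`, and the sum over the moduli of the maximum over the
  residues in `A \ X_d` of the discrepancy is at most `κ N/log N`;
* the same for the primes and all prime moduli `q ≤ N^θ`.
-/

namespace Pool.Agent.Results.MP_00e23e_nt.MaxInsideFewPairs

open Finset

/-- `S(f; N, d, a) - S(f; N)/φ(d)`, where `S(f; N)` is the sum of `f` over the primes `p ≤ N` and
`S(f; N, d, a)` the sum over the primes `p ≤ N` with `p ≡ a (mod d)`. -/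
noncomputable def disc (f : ℕ → ℝ) (N : ℕ) (a : ℤ) (d : ℕ) : ℝ :=
  (∑ p ∈ (Icc 1 N).filter (fun p : ℕ => p.Prime ∧ (p : ℤ) ≡ a [ZMOD d]), f p) -
    (∑ p ∈ (Icc 1 N).filter Nat.Prime, f p) / (Nat.totient d : ℝ)

open Classical in
/-- the moduli `1 < d ≤ N^θ` all of whose prime factors exceed `N^ε` -/
noncomputable def rough (N : ℕ) (θ ε : ℝ) : Finset ℕ :=
  (Icc 1 ⌊(N : ℝ) ^ θ⌋₊).filter (fun d : ℕ =>
    1 < d ∧ ∀ p : ℕ, p.Prime → p ∣ d → (N : ℝ) ^ ε < (p : ℝ))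

theorem rough_eq (N : ℕ) (θ ε : ℝ) :
    rough N θ ε = Pool.Agent.H442R2.BX.roughs ((N : ℝ) ^ ε) ⌊(N : ℝ) ^ θ⌋₊ := by
  classical
  ext d
  rw [Pool.Agent.W109.mem_roughs]
  unfold rough
  rw [mem_filter, mem_Icc]
  rfl

theorem result :
    (∀ θ ε : ℝ, θ < 14 / 27 → 0 < ε → ∃ (η C : ℝ), 0 < η ∧ 0 < C ∧
      ∀ N : ℕ, 2 ≤ N → ∀ f : ℕ → ℝ, (∀ p, |f p| ≤ 1) →
      ∀ A : Finset ℤ, (∀ a ∈ A, |(a : ℝ)| ≤ N) →
      ∑ d ∈ rough N θ ε, ∑ a ∈ A.filter (fun a : ℤ => Int.gcd a d = 1),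
        (Nat.totient d : ℝ) * disc f N a d ^ 2 ≤
        C * (N / Real.log N) ^ 2 * (1 + A.card * (N : ℝ) ^ (-η))) ∧
    (∀ θ ε : ℝ, θ < 14 / 27 → 0 < ε → ∃ (η C : ℝ), 0 < η ∧ 0 < C ∧
      ∀ N : ℕ, 2 ≤ N → ∀ f : ℕ → ℝ, (∀ p, |f p| ≤ 1) →
      ∀ A : Finset ℤ, (∀ a ∈ A, |(a : ℝ)| ≤ N) → (A.card : ℝ) ≤ (N : ℝ) ^ η →
      ∀ κ : ℝ, 0 < κ → ∃ X : ℕ → Finset ℤ, (∀ d, X d ⊆ A) ∧
      ∑ d ∈ rough N θ ε, ((X d).card : ℝ) / (Nat.totient d : ℝ) ≤ C / κ ^ 2 ∧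
      (∀ d ∈ rough N θ ε, ∀ a ∈ A, a ∉ X d → Int.gcd a d = 1 →
        |disc f N a d| ≤ κ * (N / Real.log N) / (Nat.totient d : ℝ)) ∧
      (∀ α : ℕ → ℤ, ∑ d ∈ (rough N θ ε).filter
        (fun d : ℕ => α d ∈ A ∧ α d ∉ X d ∧ Int.gcd (α d) d = 1), |disc f N (α d) d| ≤
          κ * (N / Real.log N))) ∧
    (∀ θ : ℝ, θ < 14 / 27 → ∃ (η C : ℝ), 0 < η ∧ 0 < C ∧
      ∀ κ : ℝ, 0 < κ → ∃ N₀ : ℕ, ∀ N : ℕ, N₀ ≤ N →
      ∀ A : Finset ℤ, (∀ a ∈ A, |(a : ℝ)| ≤ N) → (A.card : ℝ) ≤ (N : ℝ) ^ η →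
      ∃ X : ℕ → Finset ℤ, (∀ q, X q ⊆ A) ∧
      ∑ q ∈ (Icc 1 ⌊(N : ℝ) ^ θ⌋₊).filter Nat.Prime, ((X q).card : ℝ) / q ≤ C / κ ^ 2 ∧
      (∀ α : ℕ → ℤ, ∑ q ∈ (Icc 1 ⌊(N : ℝ) ^ θ⌋₊).filter
        (fun q : ℕ => q.Prime ∧ α q ∈ A ∧ α q ∉ X q ∧ ¬ (q : ℤ) ∣ α q),
          |(((Icc 1 N).filter (fun p : ℕ => p.Prime ∧ (p : ℤ) ≡ α q [ZMOD q])).card : ℝ) -
            (((Icc 1 N).filter Nat.Prime).card : ℝ) / ((q : ℝ) - 1)| ≤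
          κ * (N / Real.log N))) := by
  simp only [rough_eq]
  refine ⟨?_, ?_, ?_⟩
  · intro θ ε hθ hε
    exact Pool.Agent.W109.L2 θ ε hθ hε
  · intro θ ε hθ hε
    exact Pool.Agent.W109.MX θ ε hθ hε
  · intro θ hθ
    exact Pool.Agent.W109.PQ θ hθ

end Pool.Agent.Results.MP_00e23e_nt.MaxInsideFewPairs
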