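import Pool.Agent.W109.C.S1

/-!
Every level `θ < 5/9` for smooth (and for factorable) squarefree moduli, with the maximum over the
residues inside the sum, over any set of at most `x^η` residues outside few pairs
(modulus, residue), with arbitrary powers of the logarithm.
-/

set_option autoImplicit false

namespace Pool.Agent.Results.MP_00e23e_nt.MaxInsideFiveNinths

open Finset

/-- `π(x; d, l)`: the number of primes `p ≤ x` with `p ≡ l (mod d)` -/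
noncomputable def primesAP (x d l : ℕ) : ℕ :=
  ((Icc 1 x).filter (fun p : ℕ => p.Prime ∧ p ≡ l [MOD d])).card

/-- `E(x; d, l) = π(x; d, l) - li(x)/φ(d)`, `li(x) = ∫_2^x dt/log t` -/
noncomputable def E (x d l : ℕ) : ℝ :=
  (primesAP x d l : ℝ) - (∫ t in (2 : ℝ)..x, 1 / Real.log t) / (Nat.totient d : ℝ)

open Classical in
/-- the squarefree `d ≤ x^θ` that are at most `x^(51/100)` or have a divisor `s` with
`x^(2θ-1+δ) ≤ s ≤ x^(4-7θ-δ)` -/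
noncomputable def mods (x : ℕ) (θ δ : ℝ) : Finset ℕ :=
  (Icc 1 ⌊(x : ℝ) ^ θ⌋₊).filter (fun d : ℕ => Squarefree d ∧
    ((d : ℝ) ≤ (x : ℝ) ^ (51 / 100 : ℝ) ∨ ∃ s : ℕ, s ∣ d ∧ (x : ℝ) ^ (2 * θ - 1 + δ) ≤ s ∧
      (s : ℝ) ≤ (x : ℝ) ^ (4 - 7 * θ - δ)))

theorem mem_mods {x : ℕ} {θ δ : ℝ} {d : ℕ} : d ∈ mods x θ δ ↔
    d ∈ Icc 1 ⌊(x : ℝ) ^ θ⌋₊ ∧ Squarefree d ∧
    ((d : ℝ) ≤ (x : ℝ) ^ (51 / 100 : ℝ) ∨ ∃ s : ℕ, s ∣ d ∧ (x : ℝ) ^ (2 * θ - 1 + δ) ≤ s ∧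
      (s : ℝ) ≤ (x : ℝ) ^ (4 - 7 * θ - δ)) := by
  classical
  unfold mods
  rw [mem_filter]

theorem result (θ δ : ℝ) (h1 : 1 / 2 ≤ θ) (h2 : θ < 5 / 9) (h3 : 0 < δ) :
    (∀ x d : ℕ, 2 ≤ x → 1 ≤ d → (d : ℝ) ≤ (x : ℝ) ^ θ → Squarefree d →
      (∀ p : ℕ, p.Prime → p ∣ d → (p : ℝ) ≤ (x : ℝ) ^ (5 - 9 * θ - 2 * δ)) → d ∈ mods x θ δ) ∧
    ∃ η : ℝ, 0 < η ∧ ∀ U : ℕ, ∃ (B : ℕ) (C : ℝ), 0 < C ∧ ∀ x : ℕ, 3 ≤ x → ∃ Z : Finset ℕ,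
    ∑ d ∈ Z, 1 / (Nat.totient d : ℝ) ≤ C / Real.log x ^ U ∧
    ∀ A : Finset ℕ, A ⊆ Icc 1 x → (A.card : ℝ) ≤ (x : ℝ) ^ η → ∃ X : ℕ → Finset ℕ,
    (∀ d, X d ⊆ A) ∧
    ∑ d ∈ Icc 1 ⌊(x : ℝ) ^ θ⌋₊, ((X d).card : ℝ) / (Nat.totient d : ℝ) ≤ C * Real.log x ^ B ∧
    (∀ d ∈ mods x θ δ, d ∉ Z → ∀ a ∈ A, a ∉ X d → Nat.Coprime a d →
      |E x d a| ≤ C * (x / (Nat.totient d * Real.log x ^ U))) ∧
    (∀ α : ℕ → ℕ, ∑ d ∈ (mods x θ δ).filter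
      (fun d => α d ∈ A ∧ α d ∉ X d ∧ Nat.Coprime (α d) d), |E x d (α d)| ≤
        C * (x / Real.log x ^ U)) := by
  classical
  have hsub : ∀ x : ℕ, ∀ d ∈ mods x θ δ, d ∈ Pool.Agent.W109.C.mo
      (Pool.Agent.W109.C.PF θ δ) x θ := by
    intro x d hd
    obtain ⟨g1, g2, g3⟩ := mem_mods.1 hd
    refine Pool.Agent.W109.C.mem_mo.2 ⟨g1, ?_⟩
    rcases g3 with g3 | g3
    · exact Or.inl g3
    · exact Or.inr ⟨g2, g3⟩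
  constructor
  · intro x d hx hd1 hdx hsq hsm
    refine mem_mods.2 ⟨?_, hsq, ?_⟩
    · rw [mem_Icc]
      exact ⟨hd1, Nat.le_floor hdx⟩
    · rcases Pool.Agent.W109.C.smooth_PF θ δ h1 h3 x d hx hd1 hsq hsm with h | h
      · exact Or.inl h
      · exact Or.inr h.2
  · obtain ⟨η, hη, h⟩ := Pool.Agent.W109.C.main_li θ (by linarith) (Pool.Agent.W109.C.PF θ δ)
      (Pool.Agent.W109.C.hcorr_PF θ δ h1 h2 h3)
    refine ⟨η, hη, fun U => ?_⟩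
    obtain ⟨B, C, hC, hU⟩ := h U
    refine ⟨B, C, hC, fun x hx => ?_⟩
    obtain ⟨Z, hZ, hZ2⟩ := hU x hx
    refine ⟨Z, hZ, fun A hA hAc => ?_⟩
    obtain ⟨X, hX0, hX1, hX2, hX3⟩ := hZ2 A hA hAc
    refine ⟨X, hX0, hX1, ?_, ?_⟩
    · intro d hd hdZ a ha haX hcop
      exact hX2 d (hsub x d hd) hdZ a ha haX hcop
    · intro α
      refine le_trans ?_ (hX3 α)
      refine sum_le_sum_of_subset_of_nonneg ?_ fun _ _ _ => abs_nonneg _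
      intro d hd
      rw [mem_filter] at hd ⊢
      exact ⟨hsub x d hd.1, hd.2⟩

end Pool.Agent.Results.MP_00e23e_nt.MaxInsideFiveNinths
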